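import Pool.Agent.MP_826def_gt.MU.Alg

/-!
Basic facts on the value of a two variable series at nilpotent elements.
-/

namespace Pool.Agent.MP_826def_gt.BG

open MU Finset

noncomputable section

variable {A : Type 1} [CommRing A]

lemma fm_eq (a : ℕ → ℕ → A) (x y : A) (N : ℕ) (hx : x ^ N = 0) (hy : y ^ N = 0) :
    Fm a x y = ∑ i ∈ range N, ∑ j ∈ range N, a i j * (x ^ i * y ^ j) := by
  unfold Fm
  rw [← Finset.sum_product' (f := fun i j => a i j * (x ^ i * y ^ j))]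
  apply finsum_eq_sum_of_support_subset
  rintro ⟨i, j⟩ h
  simp only [Function.mem_support, ne_eq] at h
  simp only [coe_product, coe_range, Set.mem_prod, Set.mem_Iio]
  constructor
  · by_contra hi
    exact h (by rw [pow_eq_zero_of_le (not_lt.1 hi) hx]; simp)
  · by_contra hj
    exact h (by rw [pow_eq_zero_of_le (not_lt.1 hj) hy]; simp)

lemma tw_eq (a : ℕ → ℕ → A) (x : A) (N : ℕ) (hx : x ^ N = 0) :
    tw a x = ∑ m ∈ range N, wc a (m + 1) * x ^ m := by
  unfold tw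
  apply finsum_eq_sum_of_support_subset
  intro m h
  simp only [Function.mem_support, ne_eq] at h
  simp only [coe_range, Set.mem_Iio]
  by_contra hm
  exact h (by rw [pow_eq_zero_of_le (not_lt.1 hm) hx]; simp)

lemma nil_two {x y : A} (hx : IsNilpotent x) (hy : IsNilpotent y) :
    ∃ M : ℕ, x ^ (M + 2) = 0 ∧ y ^ (M + 2) = 0 := by
  obtain ⟨m, hm⟩ := hx
  obtain ⟨n, hn⟩ := hy
  exact ⟨m + n, pow_eq_zero_of_le (by omega) hm, pow_eq_zero_of_le (by omega) hn⟩

lemma map_fm {B : Type 1} [CommRing B] (φ : A →+* B) (a : ℕ → ℕ → A) {x y : A}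
    (hx : IsNilpotent x) (hy : IsNilpotent y) : φ (Fm a x y) = Fm (cf φ a) (φ x) (φ y) := by
  obtain ⟨M, h1, h2⟩ := nil_two hx hy
  rw [fm_eq a x y _ h1 h2, fm_eq (cf φ a) (φ x) (φ y) (M + 2) (by rw [← map_pow, h1, map_zero])
    (by rw [← map_pow, h2, map_zero])]
  simp only [map_sum, map_mul, map_pow, cf]

lemma map_wc {B : Type 1} [CommRing B] (φ : A →+* B) (a : ℕ → ℕ → A) (m : ℕ) :
    φ (wc a m) = wc (cf φ a) m := by
  simp only [wc, map_sum, cf]

lemma map_tw {B : Type 1} [CommRing B] (φ : A →+* B) (a : ℕ → ℕ → A) {x : A}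
    (hx : IsNilpotent x) : φ (tw a x) = tw (cf φ a) (φ x) := by
  obtain ⟨M, h1⟩ := hx
  rw [tw_eq a x _ h1, tw_eq (cf φ a) (φ x) M (by rw [← map_pow, h1, map_zero])]
  simp only [map_sum, map_mul, map_pow, map_wc]

lemma fm_comm (a : ℕ → ℕ → A) (hs : ∀ i j, a i j = a j i) {x y : A} (hx : IsNilpotent x)
    (hy : IsNilpotent y) : Fm a x y = Fm a y x := by
  obtain ⟨M, h1, h2⟩ := nil_two hx hy
  rw [fm_eq a x y _ h1 h2, fm_eq a y x _ h2 h1, sum_comm]
  refine sum_congr rfl fun i _ => sum_congr rfl fun j _ => ?_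
  rw [hs j i, mul_comm (x ^ j)]

lemma fm_split (a : ℕ → ℕ → A) (hu : ∀ i, a i 0 = if i = 1 then 1 else 0)
    (hs : ∀ i j, a i j = a j i) {x y : A} (hx : IsNilpotent x) (hy : IsNilpotent y) :
    ∃ S, Fm a x y = x + y + x * y * S := by
  obtain ⟨M, h1, h2⟩ := nil_two hx hy
  refine ⟨∑ i ∈ range (M + 1), ∑ j ∈ range (M + 1), a (i + 1) (j + 1) * (x ^ i * y ^ j), ?_⟩
  rw [fm_eq a x y _ h1 h2, sum_range_succ']
  have e1 : ∑ j ∈ range (M + 2), a 0 j * (x ^ 0 * y ^ j) = y := by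
    rw [sum_eq_single 1]
    · rw [hs 0 1, hu 1]; simp
    · intro j _ hj
      rw [hs 0 j, hu j, if_neg hj, zero_mul]
    · intro h; simp at h
  have e2 : ∑ i ∈ range (M + 1), a (i + 1) 0 * (x ^ (i + 1) * y ^ 0) = x := by
    rw [sum_eq_single 0]
    · rw [hu]; simp
    · intro j _ hj
      rw [hu, if_neg (by omega), zero_mul]
    · intro h; simp at h
  rw [e1]
  simp only [sum_range_succ' (n := M + 1)]
  rw [sum_add_distrib, e2, mul_sum]
  have e3 : ∀ i ∈ range (M + 1), ∑ j ∈ range (M + 1), a (i + 1) (j + 1) * (x ^ (i + 1) * y ^ (j + 1)) =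
      x * y * ∑ j ∈ range (M + 1), a (i + 1) (j + 1) * (x ^ i * y ^ j) := by
    intro i _
    rw [mul_sum]
    exact sum_congr rfl fun j _ => by ring
  rw [sum_congr rfl e3]
  ring

lemma fm_nil (a : ℕ → ℕ → A) (hu : ∀ i, a i 0 = if i = 1 then 1 else 0)
    (hs : ∀ i j, a i j = a j i) {x y : A} (hx : IsNilpotent x) (hy : IsNilpotent y) :
    IsNilpotent (Fm a x y) := by
  obtain ⟨S, h⟩ := fm_split a hu hs hx hy
  rw [h]
  refine (Commute.all _ _).isNilpotent_add ((Commute.all _ _).isNilpotent_add hx hy) ?_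
  rw [mul_assoc]
  exact (Commute.all _ _).isNilpotent_mul_right hx

lemma fm_diag (a : ℕ → ℕ → A) (x : A) (N : ℕ) (hx : x ^ N = 0) :
    Fm a x x = ∑ m ∈ range N, wc a m * x ^ m := by
  rw [fm_eq a x x N hx hx]
  have e1 : ∀ m ∈ range N, wc a m * x ^ m =
      ∑ k ∈ range (m + 1), (fun i j => a i j * (x ^ i * x ^ j)) k (m - k) := by
    intro m _
    rw [wc, sum_mul]
    refine sum_congr rfl fun k hk => ?_
    have : k + (m - k) = m := by have := mem_range.1 hk; omega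
    simp only []
    rw [← pow_add, this]
  rw [sum_congr rfl e1, sum_range_diag_flip N (fun i j => a i j * (x ^ i * x ^ j))]
  refine sum_congr rfl fun i _ => ?_
  symm
  apply sum_subset
  · intro j hj
    have := mem_range.1 hj
    exact mem_range.2 (by omega)
  · intro j _ hj
    have : N ≤ i + j := by have := mem_range.not.1 hj; omega
    rw [← pow_add, pow_eq_zero_of_le this hx, mul_zero]

lemma wc_zero (a : ℕ → ℕ → A) (hu : ∀ i, a i 0 = if i = 1 then 1 else 0) : wc a 0 = 0 := by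
  simp [wc, hu]

lemma wc_one (a : ℕ → ℕ → A) (hu : ∀ i, a i 0 = if i = 1 then 1 else 0)
    (hs : ∀ i j, a i j = a j i) : wc a 1 = 2 := by
  simp only [wc, sum_range_succ, range_zero, sum_empty, zero_add]
  rw [hs 0, hu]
  norm_num

lemma fm_tw (a : ℕ → ℕ → A) (hu : ∀ i, a i 0 = if i = 1 then 1 else 0) {x : A}
    (hx : IsNilpotent x) : Fm a x x = x * tw a x := by
  obtain ⟨M, h⟩ := hx
  rw [fm_diag a x (M + 1) (pow_eq_zero_of_le (by omega) h), tw_eq a x M h, sum_range_succ',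
    wc_zero a hu, mul_sum, zero_mul, add_zero]
  exact sum_congr rfl fun m _ => by ring

lemma tw_split (a : ℕ → ℕ → A) (hu : ∀ i, a i 0 = if i = 1 then 1 else 0)
    (hs : ∀ i j, a i j = a j i) {x : A} (hx : IsNilpotent x) : x ∣ tw a x - 2 := by
  obtain ⟨M, h⟩ := hx
  rw [tw_eq a x (M + 1) (pow_eq_zero_of_le (by omega) h), sum_range_succ', zero_add,
    wc_one a hu hs, pow_zero, mul_one, add_sub_cancel_right]
  exact dvd_sum fun m _ => Dvd.intro (wc a (m + 1 + 1) * x ^ m) (by ring)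

theorem sFm : S_Fm := by
  intro A _ a x y
  refine ⟨fm_eq a x y, tw_eq a x, fun B _ φ hx hy => ⟨map_fm φ a hx hy, map_tw φ a hx⟩,
    fun hu hs hx hy => ⟨fm_comm a hs hx hy, ?_, fm_nil a hu hs hx hy, ?_, ?_, fm_tw a hu hx,
      tw_split a hu hs hx⟩⟩
  · obtain ⟨S, h⟩ := fm_split a hu hs hx (IsNilpotent.zero (R := A))
    rw [h]; ring
  · obtain ⟨S, h⟩ := fm_split a hu hs hx hy
    exact ⟨1 + y * S, by rw [h]; ring⟩
  · obtain ⟨S, h⟩ := fm_split a hu hs hx hy
    exact ⟨S, by rw [h]; ring⟩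

end

end Pool.Agent.MP_826def_gt.BG
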