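import Pool.Agent.MP_826def_gt.BG.Fm

/-!
The universal property of truncated polynomial rings, and associativity of the group law.
-/

namespace Pool.Agent.MP_826def_gt.BG

open MU Finset

noncomputable section

lemma eval_trunc {U C : Type 1} [CommRing U] [CommRing C] {r : ℕ} (χ : U →+* C) (v : Fin r → C)
    (n : ℕ) (hv : ∀ i, v i ^ n = 0) (p : MvPolynomial (Fin r) U) :
    MvPolynomial.eval₂Hom χ v p = ∑ e : Fin r → Fin n, (∏ i, v i ^ (e i : ℕ)) *
      χ (p.coeff (Finsupp.equivFunOnFinite.symm fun i => (e i : ℕ))) := by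
  classical
  induction p using MvPolynomial.induction_on' with
  | add p q hp hq =>
    rw [map_add, hp, hq, ← sum_add_distrib]
    refine sum_congr rfl fun e _ => ?_
    rw [MvPolynomial.coeff_add, map_add, mul_add]
  | monomial d c =>
    rw [MvPolynomial.eval₂Hom_monomial, Finsupp.prod_fintype _ _ (fun i => pow_zero _)]
    by_cases hd : ∀ i, d i < n
    · rw [sum_eq_single (fun i => (⟨d i, hd i⟩ : Fin n))]
      · rw [MvPolynomial.coeff_monomial, if_pos, mul_comm]
        ext i
        simp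
      · intro e _ he
        rw [MvPolynomial.coeff_monomial, if_neg, map_zero, mul_zero]
        intro h
        apply he
        funext i
        apply Fin.ext
        simp [h]
      · intro h
        exact absurd (mem_univ _) h
    · obtain ⟨i, hi⟩ := not_forall.1 hd
      have hz : v i ^ d i = 0 := pow_eq_zero_of_le (not_lt.1 hi) (hv i)
      rw [prod_eq_zero (f := fun i => v i ^ d i) (mem_univ i) hz, mul_zero]
      symm
      refine sum_eq_zero fun e _ => ?_
      rw [MvPolynomial.coeff_monomial, if_neg, map_zero, mul_zero]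
      intro h
      apply hi
      simp [h]

/-- The universal property of a truncated polynomial ring. -/
lemma lift_free {U A B : Type 1} [CommRing U] [CommRing A] [CommRing B] {r : ℕ} (φ : U →+* A)
    (X : Fin r → A) (n : ℕ) (hX : ∀ i, X i ^ n = 0) (hF : FreeOn X n (φ : U →+ A))
    (ψ : U →+* B) (v : Fin r → B) (hv : ∀ i, v i ^ n = 0) :
    ∃ Θ : A →+* B, (∀ u, Θ (φ u) = ψ u) ∧ ∀ i, Θ (X i) = v i := by
  classical
  let f : MvPolynomial (Fin r) U →+* A := MvPolynomial.eval₂Hom φ X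
  let g : MvPolynomial (Fin r) U →+* B := MvPolynomial.eval₂Hom ψ v
  have hs : Function.Surjective f := by
    intro z
    obtain ⟨c, rfl⟩ := hF.2 z
    refine ⟨∑ e : Fin r → Fin n, (∏ i, MvPolynomial.X i ^ (e i : ℕ)) * MvPolynomial.C (c e), ?_⟩
    simp [f]
  have hk : RingHom.ker f ≤ RingHom.ker g := by
    intro p hp
    rw [RingHom.mem_ker] at hp ⊢
    have h0 : (fun e : Fin r → Fin n =>
        p.coeff (Finsupp.equivFunOnFinite.symm fun i => (e i : ℕ))) = 0 := by
      apply hF.1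
      simp only [Pi.zero_apply, map_zero, mul_zero, sum_const_zero, smul_eq_mul]
      exact (eval_trunc φ X n hX p).symm.trans hp
    show MvPolynomial.eval₂Hom ψ v p = 0
    rw [eval_trunc ψ v n hv p]
    refine sum_eq_zero fun e _ => ?_
    rw [congrFun h0 e]
    simp
  let Θ : A →+* B := f.liftOfSurjective hs ⟨g, hk⟩
  have hΘ : ∀ p, Θ (f p) = g p := fun p => f.liftOfSurjective_comp_apply hs ⟨g, hk⟩ p
  refine ⟨Θ, fun u => ?_, fun i => ?_⟩
  · simpa [f, g] using hΘ (MvPolynomial.C u)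
  · simpa [f, g] using hΘ (MvPolynomial.X i)

lemma cf_unit {U A : Type 1} [CommRing U] [CommRing A] (φ : U →+* A) (a : ℕ → ℕ → U)
    (hu : ∀ i, a i 0 = if i = 1 then 1 else 0) (i : ℕ) :
    cf φ a i 0 = if i = 1 then 1 else 0 := by
  simp only [cf, hu]
  split_ifs <;> simp

lemma cf_symm {U A : Type 1} [CommRing U] [CommRing A] (φ : U →+* A) (a : ℕ → ℕ → U)
    (hs : ∀ i j, a i j = a j i) (i j : ℕ) : cf φ a i j = cf φ a j i := by
  simp only [cf, hs i j]

theorem sFGof : S_FGof := by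
  intro U _ a hu hs h
  refine ⟨hu, hs, fun B _ ψ x y z hx hy hz => ?_⟩
  obtain ⟨k, hk⟩ := hx
  obtain ⟨l, hl⟩ := hy
  obtain ⟨m, hm⟩ := hz
  obtain ⟨A, _, φ, X, hX, hF, hA⟩ := h (k + l + m)
  obtain ⟨Θ, h1, h2⟩ := lift_free φ X _ hX hF ψ ![x, y, z] (by
    intro i
    fin_cases i
    · exact pow_eq_zero_of_le (by omega) hk
    · exact pow_eq_zero_of_le (by omega) hl
    · exact pow_eq_zero_of_le (by omega) hm)
  have hn : ∀ i, IsNilpotent (X i) := fun i => ⟨_, hX i⟩
  have hc : cf Θ (cf φ a) = cf ψ a := by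
    funext i j
    exact h1 _
  have e := congrArg Θ hA
  rw [map_fm Θ _ (fm_nil _ (cf_unit φ a hu) (cf_symm φ a hs) (hn 0) (hn 1)) (hn 2),
    map_fm Θ _ (hn 0) (fm_nil _ (cf_unit φ a hu) (cf_symm φ a hs) (hn 1) (hn 2)),
    map_fm Θ _ (hn 0) (hn 1), map_fm Θ _ (hn 1) (hn 2), hc, h2, h2, h2] at e
  exact e

end

end Pool.Agent.MP_826def_gt.BG
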