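import Pool.Agent.MP_826def_gt.MU.Alg

/-! The top degree part of the associativity relation of a formal group law. -/

namespace Pool.Agent.MP_826def_gt.BG.XAss

open MU Finset

noncomputable section

section

variable {A : Type 1} [CommRing A]

/-- The homogeneous part of degree `d`. -/
def Hh (a : ℕ → ℕ → A) (d : ℕ) (u v : A) : A :=
  ∑ p ∈ antidiagonal d, a p.1 p.2 * (u ^ p.1 * v ^ p.2)

variable {J : Ideal A} {a : ℕ → ℕ → A} {u v w δ : A}

theorem mon_mem (hu : u ∈ J) (hv : v ∈ J) (i j : ℕ) : u ^ i * v ^ j ∈ J ^ (i + j) := by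
  rw [pow_add]
  exact Ideal.mul_mem_mul (Ideal.pow_mem_pow hu i) (Ideal.pow_mem_pow hv j)

theorem Hh_mem (hu : u ∈ J) (hv : v ∈ J) (d : ℕ) : Hh a d u v ∈ J ^ d :=
  Ideal.sum_mem _ fun _ hp => Ideal.mul_mem_left _ _ (mem_antidiagonal.1 hp ▸ mon_mem hu hv _ _)

theorem Fm_eq {m : ℕ} (hJ : J ^ (m + 1) = ⊥) (hu : u ∈ J) (hv : v ∈ J) :
    Fm a u v = ∑ d ∈ range (m + 1), Hh a d u v := by
  unfold Fm Hh
  rw [finsum_eq_sum_of_support_subset (s := (range (m + 1)).biUnion antidiagonal), sum_biUnion]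
  · intro d _ e _ h
    refine disjoint_left.2 fun p h1 h2 => h ?_
    rw [← mem_antidiagonal.1 h1, ← mem_antidiagonal.1 h2]
  · intro q hq
    refine mem_coe.2 (mem_biUnion.2 ⟨q.1 + q.2, mem_range.2 ?_, mem_antidiagonal.2 rfl⟩)
    by_contra h
    have := Ideal.pow_le_pow_right (I := J) (not_lt.1 h) (mon_mem hu hv q.1 q.2)
    rw [hJ, Ideal.mem_bot] at this
    exact hq (by simp only [this, mul_zero])

theorem pow_sub {k : ℕ} (hu : u ∈ J) (hδ : δ ∈ J ^ (k + 1)) (i : ℕ) :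
    (u + δ) ^ (i + 1) - u ^ (i + 1) ∈ J ^ (i + (k + 1)) := by
  have h1 : u + δ ∈ J := J.add_mem hu (Ideal.pow_le_self (Nat.succ_ne_zero k) hδ)
  induction i with
  | zero => simpa using hδ
  | succ i ih =>
    have e : (u + δ) ^ (i + 1 + 1) - u ^ (i + 1 + 1) =
        ((u + δ) ^ (i + 1) - u ^ (i + 1)) * (u + δ) + u ^ (i + 1) * δ := by ring
    rw [e]
    refine Ideal.add_mem _ ?_ ?_
    · rw [show i + 1 + (k + 1) = i + (k + 1) + 1 by ring, pow_succ]
      exact Ideal.mul_mem_mul ih h1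
    · rw [pow_add]
      exact Ideal.mul_mem_mul (Ideal.pow_mem_pow hu _) hδ

theorem Hh_sub {k : ℕ} (hu : u ∈ J) (hv : v ∈ J) (hδ : δ ∈ J ^ (k + 1)) (d : ℕ) :
    Hh a (d + 1) (u + δ) v - Hh a (d + 1) u v ∈ J ^ (d + (k + 1)) := by
  unfold Hh
  rw [← sum_sub_distrib]
  refine Ideal.sum_mem _ fun ⟨i, j⟩ hp => ?_
  rw [← mul_sub, ← sub_mul]
  refine Ideal.mul_mem_left _ _ ?_
  rcases i with _ | i
  · simp
  · have := mem_antidiagonal.1 hp
    rw [show d + (k + 1) = i + (k + 1) + j by simp only at this; omega, pow_add]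
    exact Ideal.mul_mem_mul (pow_sub hu hδ i) (Ideal.pow_mem_pow hv j)

theorem low (h1 : ∀ i, a i 0 = if i = 1 then 1 else 0) (h2 : ∀ i j, a i j = a j i) (n : ℕ)
    (u v : A) : ∑ d ∈ range (n + 2), Hh a d u v = ∑ d ∈ range n, Hh a (d + 2) u v + (u + v) := by
  rw [sum_range_succ', sum_range_succ']
  have e0 : Hh a 0 u v = 0 := by simp [Hh, h1]
  have e1 : Hh a (0 + 1) u v = u + v := by
    have : a 0 1 = 1 := by rw [h2, h1]; simp
    simp [Hh, Finset.Nat.antidiagonal_succ, h1, this, add_comm]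
  rw [e0, e1, add_zero]

theorem Hh_symm (h2 : ∀ i j, a i j = a j i) (d : ℕ) (u v : A) : Hh a d u v = Hh a d v u := by
  unfold Hh
  rw [← Finset.Nat.sum_antidiagonal_swap]
  exact sum_congr rfl fun p _ => by rw [Prod.fst_swap, Prod.snd_swap, h2, mul_comm (u ^ _)]

theorem triple (h1 : ∀ i, a i 0 = if i = 1 then 1 else 0) (h2 : ∀ i j, a i j = a j i) {n : ℕ}
    (hJ : J ^ (n + 2 + 1) = ⊥) (hu : u ∈ J) (hv : v ∈ J) (hw : w ∈ J) :
    Fm a u v ∈ J ∧ Fm a (Fm a u v) w =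
      ∑ d ∈ range (n + 2), Hh a d (∑ d ∈ range (n + 2), Hh a d u v) w +
        (Hh a (n + 2) u v + Hh a (n + 2) (u + v) w) := by
  have h3 : ∀ k, ∑ d ∈ range k, Hh a (d + 2) u v ∈ J ^ (1 + 1) := fun k =>
    Ideal.sum_mem _ fun d _ => Ideal.pow_le_pow_right (by omega) (Hh_mem hu hv _)
  have h4 : ∀ k, ∑ d ∈ range (k + 2), Hh a d u v ∈ J := fun k => by
    rw [low h1 h2]
    exact J.add_mem (Ideal.pow_le_self (by omega) (h3 k)) (J.add_mem hu hv)
  have h5 : Fm a u v ∈ J := by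
    rw [Fm_eq hJ hu hv]
    exact h4 (n + 1)
  refine ⟨h5, ?_⟩
  have h6 : Hh a (n + 2) (Fm a u v) w = Hh a (n + 2) (u + v) w := by
    have := Hh_sub (a := a) (J.add_mem hu hv) hw (h3 (n + 1)) (n + 1)
    rw [show n + 1 + (1 + 1) = n + 2 + 1 by ring, hJ, Ideal.mem_bot, sub_eq_zero] at this
    rw [Fm_eq hJ hu hv, low h1 h2 (n + 1), add_comm _ (u + v)]
    exact this
  rw [Fm_eq hJ h5 hw, sum_range_succ, h6, ← add_assoc, add_left_inj, Fm_eq hJ hu hv,
    sum_range_succ _ (n + 2), low h1 h2 n (_ + _), low h1 h2 n (∑ d ∈ _, _), sum_congr rfl fun d _ => ?_]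
  · ring
  have := Ideal.pow_le_pow_right (I := J) (show n + 2 + 1 ≤ d + 1 + (n + 1 + 1) by omega)
    (Hh_sub (a := a) (h4 n) hw (Hh_mem (a := a) hu hv (n + 1 + 1)) (d + 1))
  rwa [hJ, Ideal.mem_bot, sub_eq_zero] at this

theorem low_mem {S : Subring A} {m : ℕ} (hS : ∀ i j, i + j < m → a i j ∈ S) (hu : u ∈ S)
    (hv : v ∈ S) : ∑ d ∈ range m, Hh a d u v ∈ S :=
  S.sum_mem fun _ hd => S.sum_mem fun _ hp =>
    S.mul_mem (hS _ _ ((mem_antidiagonal.1 hp).trans_lt (mem_range.1 hd)))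
      (S.mul_mem (S.pow_mem hu _) (S.pow_mem hv _))

theorem cocycle (h1 : ∀ i, a i 0 = if i = 1 then 1 else 0) (h2 : ∀ i j, a i j = a j i) {n : ℕ}
    (hJ : J ^ (n + 2 + 1) = ⊥) (hu : u ∈ J) (hv : v ∈ J) (hw : w ∈ J) {S : Subring A}
    (hS : ∀ i j, i + j < n + 2 → a i j ∈ S) (su : u ∈ S) (sv : v ∈ S) (sw : w ∈ S)
    (h : Fm a (Fm a u v) w = Fm a u (Fm a v w)) :
    Hh a (n + 2) u v + Hh a (n + 2) (u + v) w - (Hh a (n + 2) v w + Hh a (n + 2) (v + w) u) ∈ S := by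
  obtain ⟨-, e1⟩ := triple h1 h2 hJ hu hv hw
  obtain ⟨h3, e2⟩ := triple h1 h2 hJ hv hw hu
  have e3 : Fm a u (Fm a v w) = Fm a (Fm a v w) u := by
    rw [Fm_eq hJ hu h3, Fm_eq hJ h3 hu]
    exact sum_congr rfl fun d _ => Hh_symm h2 _ _ _
  rw [e3, e1, e2] at h
  have := S.sub_mem (low_mem hS (low_mem hS sv sw) su) (low_mem hS (low_mem hS su sv) sw)
  rwa [sub_eq_sub_iff_add_eq_add.2 (h.symm.trans (add_comm _ _))] at this

theorem map_Hh {B : Type 1} [CommRing B] (ψ : A →+* B) (d : ℕ) (u v : A) :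
    ψ (Hh a d u v) = Hh (cf ψ a) d (ψ u) (ψ v) := by
  simp [Hh, cf]

end

open MvPolynomial

variable {R : Type 1} [CommRing R] {a : ℕ → ℕ → R}

theorem coeff_two {x y z : Fin 3} (hx : x ≠ z) (hy : y ≠ z) {e : Fin 3 →₀ ℕ} (he : e z ≠ 0)
    (d : ℕ) : coeff e (Hh (cf C a) d (X x) (X y)) = 0 := by
  unfold Hh
  rw [coeff_sum]
  refine sum_eq_zero fun p _ => ?_
  rw [cf, coeff_C_mul, X_pow_eq_monomial, X_pow_eq_monomial, monomial_mul, coeff_monomial,
    if_neg, mul_zero]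
  rintro rfl
  exact he (by simp [hx, hy])

theorem coeff_three {x y z : Fin 3} (hxy : x ≠ y) (hx : x ≠ z) (hy : y ≠ z) (i j k : ℕ) :
    coeff (Finsupp.single x i + Finsupp.single y j + Finsupp.single z k)
      (Hh (cf C a) (i + j + k) (X x + X y) (X z)) = ((i + j).choose i : R) * a (i + j) k := by
  have key : ∀ i' j' k' : ℕ, Finsupp.single x i' + Finsupp.single y j' + Finsupp.single z k' =
      Finsupp.single x i + Finsupp.single y j + Finsupp.single z k → i' = i ∧ j' = j ∧ k' = k :=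
    fun i' j' k' h => ⟨by simpa [hxy, hx, hxy.symm, hx.symm] using DFunLike.congr_fun h x,
      by simpa [hxy, hy, hxy.symm, hy.symm] using DFunLike.congr_fun h y,
      by simpa [hx, hy, hx.symm, hy.symm] using DFunLike.congr_fun h z⟩
  have ex : ∀ p q : ℕ, ((X x + X y) ^ p * X z ^ q : MvPolynomial (Fin 3) R) =
      ∑ l ∈ antidiagonal p, monomial (Finsupp.single x l.1 + Finsupp.single y l.2 +
        Finsupp.single z q) (p.choose l.1 : R) := fun p q => by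
    rw [(Commute.all _ _).add_pow', sum_mul]
    refine sum_congr rfl fun l _ => ?_
    rw [X_pow_eq_monomial, X_pow_eq_monomial, X_pow_eq_monomial, monomial_mul, smul_monomial,
      monomial_mul]
    simp
  unfold Hh
  rw [coeff_sum, sum_eq_single (i + j, k)]
  · rw [cf, coeff_C_mul, ex, coeff_sum, sum_eq_single (i, j), coeff_monomial, if_pos rfl, mul_comm]
    · intro l _ hl
      rw [coeff_monomial, if_neg fun h => hl (Prod.ext (key _ _ _ h).1 (key _ _ _ h).2.1)]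
    · simp
  · intro p _ hp
    rw [cf, coeff_C_mul, ex, coeff_sum, sum_eq_zero, mul_zero]
    intro l hl
    rw [coeff_monomial, if_neg fun h => hp (Prod.ext ?_ (key _ _ _ h).2.2)]
    rw [← mem_antidiagonal.1 hl, (key _ _ _ h).1, (key _ _ _ h).2.1]
  · simp

theorem rel (h : FG a) {T : Subring R} {i j k : ℕ} (hi : 1 ≤ i) (hj : 1 ≤ j) (hk : 1 ≤ k)
    (hT : ∀ p q, p + q < i + j + k → a p q ∈ T) :
    ((i + j).choose i : R) * a (i + j) k - ((j + k).choose j : R) * a (j + k) i ∈ T := by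
  obtain ⟨n, hn⟩ : ∃ n, i + j + k = n + 2 := ⟨i + j + k - 2, by omega⟩
  let I := idealOfVars (Fin 3) R ^ (n + 2 + 1)
  let mk := Ideal.Quotient.mk I
  have hJ : (idealOfVars (Fin 3) R).map mk ^ (n + 2 + 1) = ⊥ := by
    rw [← Ideal.map_pow]
    exact Ideal.map_quotient_self I
  have hX : ∀ x, mk (X x) ∈ (idealOfVars (Fin 3) R).map mk := fun x =>
    Ideal.mem_map_of_mem _ (Ideal.subset_span ⟨x, rfl⟩)
  have hN : ∀ x, IsNilpotent (mk (X x)) := fun x =>
    ⟨n + 2 + 1, Ideal.mem_bot.1 (hJ ▸ Ideal.pow_mem_pow (hX x) _)⟩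
  have hS : ∀ x, mk (X x) ∈ (mk.comp (map T.subtype)).range := fun x => ⟨X x, by simp⟩
  obtain ⟨P, hP⟩ := cocycle (a := cf (mk.comp C) a) (fun i => by simp [cf, h.unit])
    (fun i j => by rw [cf, cf, h.symm]) hJ (hX 0) (hX 1) (hX 2)
    (S := (mk.comp (map T.subtype)).range)
    (fun p q hpq => ⟨C ⟨a p q, hT p q (hn ▸ hpq)⟩, by simp [cf]⟩) (hS 0) (hS 1) (hS 2)
    (h.assoc _ _ _ _ _ (hN 0) (hN 1) (hN 2))
  have e : ∀ u v, Hh (cf (mk.comp C) a) (n + 2) (mk u) (mk v) = mk (Hh (cf C a) (n + 2) u v) :=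
    fun u v => (map_Hh mk _ u v).symm
  rw [← map_add mk, ← map_add mk, e, e, e, e, ← map_add, ← map_add, ← map_sub, RingHom.comp_apply,
    Ideal.Quotient.eq, mem_pow_idealOfVars_iff'] at hP
  have h0 := hP (Finsupp.single 0 i + Finsupp.single 1 j + Finsupp.single 2 k) (by simp; omega)
  have h3 := coeff_three (a := a) (x := 0) (y := 1) (z := 2) (by decide) (by decide) (by decide)
    i j k
  have h4 := coeff_three (a := a) (x := 1) (y := 2) (z := 0) (by decide) (by decide) (by decide)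
    j k i
  rw [show j + k + i = n + 2 by omega, add_comm _ (Finsupp.single 0 i), ← add_assoc] at h4
  rw [hn] at h3
  rw [coeff_sub, coeff_sub, coeff_add, coeff_add, h3, h4,
    coeff_two (z := 2) (by decide) (by decide) (by simp; omega),
    coeff_two (z := 0) (by decide) (by decide) (by simp; omega), zero_add, zero_add, sub_eq_zero,
    coeff_map] at h0
  exact h0 ▸ (coeff _ P).2

end

end Pool.Agent.MP_826def_gt.BG.XAss
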