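import Mathlib

/-! The symmetric cocycle lemma modulo two. -/

namespace Pool.Agent.MP_826def_gt.BG.XCoc

open Finset

theorem odd_choose (a : ℕ) : ∀ c u : ℕ, u < 2 ^ a → Odd ((2 ^ a * c + u).choose u) := by
  induction a with
  | zero =>
    intro c u hu
    obtain rfl : u = 0 := by simpa using hu
    simp
  | succ a ih =>
    intro c u hu
    have : Fact (Nat.Prime 2) := ⟨Nat.prime_two⟩
    have h := Choose.choose_modEq_choose_mod_mul_choose_div_nat (n := 2 ^ (a + 1) * c + u) (k := u)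
      (p := 2)
    have e : 2 ^ (a + 1) * c = 2 * (2 ^ a * c) := by ring
    have e1 : (2 ^ (a + 1) * c + u) % 2 = u % 2 := by omega
    have e2 : (2 ^ (a + 1) * c + u) / 2 = 2 ^ a * c + u / 2 := by omega
    rw [e1, e2, Nat.choose_self, one_mul] at h
    have := ih c (u / 2) (by rw [pow_succ] at hu; omega)
    rw [Nat.odd_iff] at this ⊢
    exact Eq.trans h this

variable {R : Type*} [CommRing R] {S : AddSubgroup R}

theorem even_mem (h2 : ∀ x, 2 * x ∈ S) {n : ℕ} (hn : Even n) (x : R) : (n : R) * x ∈ S := by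
  obtain ⟨k, rfl⟩ := hn
  have := h2 (k * x)
  rwa [show (2 : R) * (k * x) = ((k + k : ℕ) : R) * x by push_cast; ring] at this

theorem of_odd (h2 : ∀ x, 2 * x ∈ S) {n : ℕ} (hn : Odd n) {x : R} (h : (n : R) * x ∈ S) :
    x ∈ S := by
  obtain ⟨k, rfl⟩ := hn
  have := S.sub_mem h (h2 (k * x))
  rwa [show ((2 * k + 1 : ℕ) : R) * x - 2 * (k * x) = x by push_cast; ring] at this

theorem nat_mem {x : R} (h : x ∈ S) (n : ℕ) : (n : R) * x ∈ S := by
  rw [← nsmul_eq_mul]
  exact S.nsmul_mem h n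

/-- The case where the degree is a power of two. -/
theorem coc_pow (h2 : ∀ x, 2 * x ∈ S) {k : ℕ} {al : ℕ → R}
    (hs : ∀ i ≤ 2 ^ (k + 1), al i = al (2 ^ (k + 1) - i))
    (hr : ∀ i s, 1 ≤ i → i < s → s < 2 ^ (k + 1) →
      (s.choose i : R) * al s - ((2 ^ (k + 1) - i).choose (s - i) : R) * al i ∈ S)
    (h0 : al 0 ∈ S) (hx : ∑ i ∈ range (2 ^ (k + 1) + 1), al i ∈ S) :
    ∀ i ≤ 2 ^ (k + 1), al i ∈ S := by
  have hp : 0 < 2 ^ k := by positivity
  have e : 2 ^ (k + 1) = 2 * 2 ^ k := by ring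
  have h1 : ∀ i < 2 ^ k, al i ∈ S := by
    intro i hi
    rcases Nat.eq_zero_or_pos i with rfl | h
    · exact h0
    have a1 := hr i (2 ^ k) h hi (by omega)
    have a2 := even_mem h2 (even_iff_two_dvd.2 (Nat.prime_two.dvd_choose_pow (n := k) (k := i)
      (by omega) (by omega))) (al (2 ^ k))
    have a3 := odd_choose k 1 (2 ^ k - i) (by omega)
    rw [show 2 ^ k * 1 + (2 ^ k - i) = 2 ^ (k + 1) - i by omega] at a3
    refine of_odd h2 a3 ?_
    simpa using S.sub_mem a2 a1
  have h3 : ∀ i ≤ 2 ^ (k + 1), i ≠ 2 ^ k → al i ∈ S := by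
    intro i hi hne
    rcases lt_or_gt_of_ne hne with h | h
    · exact h1 i h
    · rw [hs i hi]
      exact h1 _ (by omega)
  intro i hi
  by_cases hne : i = 2 ^ k
  · subst hne
    rw [← add_sum_erase _ _ (mem_range.2 (Nat.lt_succ_of_le hi))] at hx
    have := S.sub_mem hx (S.sum_mem fun j hj =>
      h3 j (Nat.le_of_lt_succ (mem_range.1 (mem_of_mem_erase hj))) (ne_of_mem_erase hj))
    simpa using this
  · exact h3 i hi hne

/-- The case where the degree is not a power of two. -/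
theorem coc_other (h2 : ∀ x, 2 * x ∈ S) {k m : ℕ} (h1 : 2 ^ k < m) (h3 : m < 2 ^ (k + 1))
    {al : ℕ → R} (hs : ∀ i ≤ m, al i = al (m - i))
    (hr : ∀ i s, 1 ≤ i → i < s → s < m →
      (s.choose i : R) * al s - ((m - i).choose (s - i) : R) * al i ∈ S)
    (h0 : al 0 ∈ S) (hx : al (2 ^ k) ∈ S) : ∀ i ≤ m, al i ∈ S := by
  have hp : 0 < 2 ^ k := by positivity
  have e : 2 ^ (k + 1) = 2 * 2 ^ k := by ring
  have ha : ∀ s, 2 ^ k ≤ s → s < m → al s ∈ S := by
    intro s a1 a2
    rcases a1.eq_or_lt with rfl | a1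
    · exact hx
    have a3 := odd_choose k 1 (s - 2 ^ k) (by omega)
    rw [show 2 ^ k * 1 + (s - 2 ^ k) = s by omega, Nat.choose_symm a1.le] at a3
    refine of_odd h2 a3 ?_
    simpa using S.add_mem (hr (2 ^ k) s hp a1 a2) (nat_mem hx ((m - 2 ^ k).choose (s - 2 ^ k)))
  have hb : ∀ j, 1 ≤ j → j < m → al j ∈ S := by
    intro j
    induction j using Nat.strong_induction_on with
    | _ j ih =>
      intro a1 a2
      have b1 : 2 ^ Nat.log 2 j ≤ j := Nat.pow_log_le_self 2 (by omega)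
      have b2 : j < 2 ^ (Nat.log 2 j + 1) := Nat.lt_pow_succ_log_self (by norm_num) j
      generalize Nat.log 2 j = b at b1 b2
      have hq : 0 < 2 ^ b := by positivity
      have e' : 2 ^ (b + 1) = 2 * 2 ^ b := by ring
      rcases b1.eq_or_lt with rfl | b1
      · by_cases c1 : 2 ^ k ≤ 2 ^ b
        · exact ha _ c1 a2
        by_cases c2 : 2 ^ k ≤ m - 2 ^ b
        · rw [hs _ a2.le]
          exact ha _ c2 (by omega)
        have c3 : b ≤ k := (Nat.pow_le_pow_iff_right (by norm_num : 1 < 2)).1 (by omega)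
        obtain ⟨c, hc⟩ := pow_dvd_pow 2 c3
        obtain ⟨c, rfl⟩ : ∃ c', c = c' + 1 :=
          ⟨c - 1, by rcases c with _ | c <;> simp at hc ⊢⟩
        have a3 := odd_choose b c (m - 2 ^ k) (by omega)
        have e3 : 2 ^ k = 2 ^ b * c + 2 ^ b := by rw [hc]; ring
        rw [show 2 ^ b * c + (m - 2 ^ k) = m - 2 ^ b by omega,
          show m - 2 ^ k = m - 2 ^ b - (2 ^ k - 2 ^ b) by omega, Nat.choose_symm (by omega)] at a3
        refine of_odd h2 a3 ?_
        exact (sub_sub_cancel _ _).subst (motive := (· ∈ S)) (S.sub_mem (nat_mem hx _)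
          (hr (2 ^ b) (2 ^ k) hq (by omega) h1))
      · have a3 := odd_choose b 1 (j - 2 ^ b) (by omega)
        rw [show 2 ^ b * 1 + (j - 2 ^ b) = j by omega, Nat.choose_symm b1.le] at a3
        have a4 := hr (m - j) (m - j + 2 ^ b) (by omega) (by omega) (by omega)
        have a5 : al (m - j + 2 ^ b) ∈ S := by
          rw [hs _ (by omega)]
          exact ih _ (by omega) (by omega) (by omega)
        rw [show m - (m - j) = j by omega, show m - j + 2 ^ b - (m - j) = 2 ^ b by omega,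
          ← hs j a2.le] at a4
        refine of_odd h2 a3 ?_
        simpa using S.sub_mem (nat_mem a5 ((m - j + 2 ^ b).choose (m - j))) a4
  intro i hi
  rcases Nat.eq_zero_or_pos i with rfl | h
  · exact h0
  rcases hi.eq_or_lt with rfl | hi
  · rw [hs i le_rfl, Nat.sub_self]
    exact h0
  · exact hb i h hi

end Pool.Agent.MP_826def_gt.BG.XCoc
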