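import Pool.Agent.MP_826def_gt.MU.Alg

/-!
A graded ring that is generated modulo two by elements with nonzero linear terms is a polynomial
ring modulo two.
-/

namespace Pool.Agent.MP_826def_gt.BG

open MU MvPolynomial Set

noncomputable section

/-- The recursive inverse of a triangular substitution. -/
def tinv (c : ℕ → ℚ) (D : ℕ → MvPolynomial ℕ ℤ) (n : ℕ) : MvPolynomial ℕ ℚ :=
  C (c n) * (X n - aeval (fun m => if _ : m < n then tinv c D m else 0) (D n))
termination_by n

lemma vars_low (y : MvPolynomial ℕ ℤ) (n : ℕ)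
    (hy : y.IsWeightedHomogeneous (fun n => n + 1) (n + 1)) (m : ℕ)
    (hm : m ∈ (y - monomial (Finsupp.single n 1) (y.coeff (Finsupp.single n 1))).vars) : m < n := by
  obtain ⟨d, hd, hmd⟩ := (mem_vars_iff_mem_support m).1 hm
  rw [mem_support_iff, coeff_sub, coeff_monomial] at hd
  have hne : Finsupp.single n 1 ≠ d := by
    rintro rfl
    simp at hd
  rw [if_neg hne, sub_zero] at hd
  have hw := hy hd
  have h1 := Finsupp.weight_sub_single_add (w := fun n : ℕ => n + 1) (Finsupp.mem_support_iff.1 hmd)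
  rw [hw] at h1
  by_contra hlt
  have hmn : m = n := by omega
  subst hmn
  have h0 : Finsupp.weight (fun n : ℕ => n + 1) (d - Finsupp.single m 1) = 0 := by omega
  have : Finsupp.NonTorsionWeight ℕ (fun n : ℕ => n + 1) :=
    Finsupp.nonTorsionWeight_of ℕ _ fun i => by omega
  rw [Finsupp.weight_eq_zero_iff_eq_zero] at h0
  apply hne
  refine le_antisymm ?_ (tsub_eq_zero_iff_le.1 h0)
  rw [Finsupp.single_le_iff]
  exact Nat.one_le_iff_ne_zero.2 (Finsupp.mem_support_iff.1 hmd)

/-- A weight preserving substitution with nonzero linear terms is injective. -/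
lemma tri_inj (y : ℕ → MvPolynomial ℕ ℤ)
    (hy : ∀ n, (y n).IsWeightedHomogeneous (fun n => n + 1) (n + 1))
    (lin : ∀ n, (y n).coeff (Finsupp.single n 1) ≠ 0) :
    Function.Injective (aeval y : MvPolynomial ℕ ℤ →ₐ[ℤ] MvPolynomial ℕ ℤ) := by
  let c : ℕ → ℤ := fun n => (y n).coeff (Finsupp.single n 1)
  let D : ℕ → MvPolynomial ℕ ℤ := fun n => y n - monomial (Finsupp.single n 1) (c n)
  let s := tinv (fun n => (c n : ℚ)⁻¹) D
  have hs : ∀ n, (aeval s : MvPolynomial ℕ ℤ →ₐ[ℤ] MvPolynomial ℕ ℚ) (y n) = X n := by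
    intro n
    have e : y n = C (c n) * X n + D n := by
      simp only [D, X, C_mul_monomial, mul_one, add_sub_cancel]
    have e2 : (aeval s : MvPolynomial ℕ ℤ →ₐ[ℤ] MvPolynomial ℕ ℚ) (D n) =
        aeval (fun m => if _ : m < n then s m else 0) (D n) := by
      refine hom_congr_vars (f₁ := (aeval s : MvPolynomial ℕ ℤ →ₐ[ℤ] MvPolynomial ℕ ℚ).toRingHom)
        (f₂ := (aeval (fun m => if _ : m < n then s m else 0) :
          MvPolynomial ℕ ℤ →ₐ[ℤ] MvPolynomial ℕ ℚ).toRingHom) (RingHom.ext_int _ _) ?_ rfl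
      intro i hi _
      simp [vars_low _ n (hy n) i hi]
    have e3 : s n = C ((c n : ℚ)⁻¹) * (X n - aeval (fun m => if _ : m < n then s m else 0) (D n)) := by
      show tinv _ _ n = _
      rw [tinv]
    have e4 : ((c n : ℤ) : MvPolynomial ℕ ℚ) * C ((c n : ℚ)⁻¹) = 1 := by
      rw [← map_intCast (C : ℚ →+* MvPolynomial ℕ ℚ), ← map_mul,
        mul_inv_cancel₀ (Int.cast_ne_zero.2 (lin n)), map_one]
    rw [e, map_add, map_mul, aeval_X, e2, e3, eq_intCast C, map_intCast, ← mul_assoc, e4]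
    ring
  have h : ∀ P : MvPolynomial ℕ ℤ, (aeval s : MvPolynomial ℕ ℤ →ₐ[ℤ] MvPolynomial ℕ ℚ) (aeval y P) =
      map (Int.castRingHom ℚ) P := by
    intro P
    induction P using MvPolynomial.induction_on with
    | C a => simp
    | add p q hp hq => simp only [map_add, hp, hq]
    | mul_X p n hp => simp only [map_mul, hp, aeval_X, hs, map_X]
  intro P Q hPQ
  apply map_injective (Int.castRingHom ℚ) (RingHom.injective_int _)
  rw [← h, ← h, hPQ]

lemma wt_fg (d : ℕ) : (weightedHomogeneousSubmodule ℤ (fun n : ℕ => n + 1) d).FG := by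
  have hfin : {f : ℕ →₀ ℕ | Finsupp.weight (fun n : ℕ => n + 1) f = d}.Finite := by
    refine (Set.finite_Iic (∑ n ∈ Finset.range d, Finsupp.single n d)).subset fun f hf => ?_
    intro n
    by_cases h0 : f n = 0
    · simp [h0]
    · have h1 := Finsupp.le_weight_of_ne_zero' (fun n : ℕ => n + 1) h0
      have h2 := Finsupp.le_weight (fun n : ℕ => n + 1) (s := n) (by omega) f
      have h3 : Finsupp.weight (fun n : ℕ => n + 1) f = d := hf
      rw [h3] at h1 h2
      have : n < d := h1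
      simp [Finsupp.single_apply, this, h2]
  rw [weightedHomogeneousSubmodule_eq_finsupp_supported, ← Module.Finite.iff_fg]
  have := hfin.to_subtype
  exact Module.Finite.of_basis (basisRestrictSupport ℤ _)

variable {U : Type 1} [CommRing U] {π : ℕ → U →+ U} {x : ℕ → U}

lemma proj_ev (hπ : Grd π) (hx : ∀ n, π (n + 1) (x n) = x n) (d : ℕ) (P : MvPolynomial ℕ ℤ) :
    π d (aeval x P) = aeval x (weightedHomogeneousComponent (fun n : ℕ => n + 1) d P) := by
  have h1 : ∀ m : ℕ →₀ ℕ, π (Finsupp.weight (fun n : ℕ => n + 1) m) (m.prod fun i k => x i ^ k) =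
      m.prod fun i k => x i ^ k := by
    intro m
    induction m using Finsupp.induction_linear with
    | zero => simpa using hπ.one
    | add f g hf hg =>
      rw [map_add, Finsupp.prod_add_index' (fun _ => pow_zero _) (fun _ _ _ => pow_add _ _ _)]
      exact hπ.mul _ _ _ _ hf hg
    | single i k =>
      rw [Finsupp.weight_single,
        Finsupp.prod_single_index (h := fun i k => x i ^ k) (pow_zero _)]
      induction k with
      | zero => simpa using hπ.one
      | succ k ih =>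
        rw [succ_nsmul, pow_succ]
        exact hπ.mul _ _ _ _ ih (hx i)
  induction P using MvPolynomial.induction_on' with
  | add p q hp hq => simp only [map_add, hp, hq]
  | monomial m r =>
    rw [weightedHomogeneousComponent_of_mem (isWeightedHomogeneous_monomial _ m r rfl),
      aeval_monomial, eq_intCast, ← zsmul_eq_mul, map_zsmul, ← h1 m, hπ.proj, h1 m]
    split_ifs
    · rw [aeval_monomial, eq_intCast, zsmul_eq_mul]
    · simp

/-- A polynomial whose value is even is even. -/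
lemma even_of_ev (θ : U →+* MvPolynomial ℕ ℤ) (hπ : Grd π) (hx : ∀ n, π (n + 1) (x n) = x n)
    (gen : ∀ u, ∃ (P : MvPolynomial ℕ ℤ) (y : U), u = aeval x P + 2 * y)
    (hθ : ∀ d u, π d u = u → (θ u).IsWeightedHomogeneous (fun n => n + 1) d)
    (lin : ∀ n, (θ (x n)).coeff (Finsupp.single n 1) ≠ 0) (P : MvPolynomial ℕ ℤ) (u : U)
    (h : aeval x P = 2 * u) : C (2 : ℤ) ∣ P := by
  have hι : ∀ Q : MvPolynomial ℕ ℤ, θ (aeval x Q) = aeval (fun n => θ (x n)) Q := by
    intro Q
    induction Q using MvPolynomial.induction_on with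
    | C a => simp
    | add p q hp hq => simp only [map_add, hp, hq]
    | mul_X p n hp => simp only [map_mul, hp, aeval_X]
  have inj := tri_inj (fun n => θ (x n)) (fun n => hθ _ _ (hx n)) lin
  have two : ∀ d v, π d (2 * v) = 2 * π d v := fun d v => by rw [two_mul, map_add, two_mul]
  rw [C_dvd_iff_dvd_coeff]
  intro m
  set d := Finsupp.weight (fun n : ℕ => n + 1) m with hd
  let T : U →ₗ[ℤ] MvPolynomial ℕ ℤ := ((θ : U →+ MvPolynomial ℕ ℤ).comp (π d)).toIntLinearMap
  let J : MvPolynomial ℕ ℤ →ₗ[ℤ] MvPolynomial ℕ ℤ := (aeval fun n => θ (x n)).toLinearMap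
  have hfg : (LinearMap.range T).FG := by
    refine (wt_fg d).of_le ?_
    rintro _ ⟨v, rfl⟩
    exact hθ d (π d v) (by rw [hπ.proj, if_pos rfl])
  obtain ⟨r, hr, hle⟩ := Submodule.exists_sub_one_mem_and_smul_le_of_fg_of_le_sup
    (I := Ideal.span {(2 : ℤ)}) (N := LinearMap.range J) hfg le_rfl (by
      rintro _ ⟨v, rfl⟩
      obtain ⟨Q, y, rfl⟩ := gen v
      have : T (aeval x Q + 2 * y) =
          J (weightedHomogeneousComponent (fun n : ℕ => n + 1) d Q) + (2 : ℤ) • T y := by
        show θ (π d _) = aeval _ _ + (2 : ℤ) • θ (π d y)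
        rw [map_add, proj_ev hπ hx, two, map_add, hι, map_mul, map_ofNat, zsmul_eq_mul]
        rfl
      rw [this]
      exact Submodule.add_mem_sup ⟨_, rfl⟩
        (Submodule.smul_mem_smul (Ideal.subset_span rfl) ⟨y, rfl⟩))
  obtain ⟨Q, hQ⟩ := hle (Submodule.smul_mem_pointwise_smul (T u) r _ ⟨u, rfl⟩)
  have e : r • weightedHomogeneousComponent (fun n : ℕ => n + 1) d P = (2 : ℤ) • Q := by
    apply inj
    rw [map_zsmul, map_zsmul, ← hι, ← proj_ev hπ hx, h, two, map_mul, map_ofNat]
    have hQ' : aeval (fun n => θ (x n)) Q = r • θ (π d u) := hQ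
    rw [hQ', smul_comm, zsmul_eq_mul _ (2 : ℤ)]
    rfl
  have e2 := congrArg (coeff m) e
  rw [coeff_smul, coeff_smul, coeff_weightedHomogeneousComponent, if_pos rfl, smul_eq_mul,
    smul_eq_mul] at e2
  obtain ⟨t, ht⟩ := Ideal.mem_span_singleton.1 hr
  exact ⟨coeff m Q - t * coeff m P, by linear_combination e2 - coeff m P * ht⟩

theorem core345 (θ : U →+* MvPolynomial ℕ ℤ) (w : ℕ → U) (hπ : Grd π)
    (hx : ∀ n, π (n + 1) (x n) = x n)
    (gen : ∀ u, ∃ (P : MvPolynomial ℕ ℤ) (y : U), u = aeval x P + 2 * y)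
    (tf : ∀ u : U, 2 * u = 0 → u = 0)
    (hθ : ∀ d u, π d u = u → (θ u).IsWeightedHomogeneous (fun n => n + 1) d)
    (lin : ∀ n, (θ (x n)).coeff (Finsupp.single n 1) ≠ 0) (w0 : w 0 = 2)
    (wk : ∀ k, 1 ≤ k → w k = x (2 ^ k - 2)) (r : ℕ) :
    Reg w r U ∧ (1 : U) ∉ Ideal.span (w '' Iio r) := by
  choose P y hP using gen
  let ρ : MvPolynomial ℕ ℤ →+* MvPolynomial ℕ (ZMod 2) := map (Int.castRingHom (ZMod 2))
  have key : ∀ (Q Q' : MvPolynomial ℕ ℤ) (v : U), aeval x Q = aeval x Q' + 2 * v → ρ Q = ρ Q' := by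
    intro Q Q' v h
    rw [← sub_eq_zero, ← map_sub]
    exact (C_dvd_iff_zmod 2 _).1 (even_of_ev θ hπ hx (fun u => ⟨P u, y u, hP u⟩) hθ lin _ v
      (by rw [map_sub, h]; ring))
  let ψ : U →+* MvPolynomial ℕ (ZMod 2) :=
    { toFun := fun u => ρ (P u)
      map_one' := by
        rw [key (P 1) 1 (-y 1) (by rw [map_one]; linear_combination -hP 1), map_one]
      map_zero' := by
        rw [key (P 0) 0 (-y 0) (by rw [map_zero]; linear_combination -hP 0), map_zero]
      map_add' := fun u v => by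
        rw [← map_add]
        exact key _ _ (y u + y v - y (u + v))
          (by rw [map_add]; linear_combination hP u + hP v - hP (u + v))
      map_mul' := fun u v => by
        rw [← map_mul]
        exact key _ _ (y u * v + aeval x (P u) * y v - y (u * v))
          (by rw [map_mul]; linear_combination v * hP u + aeval x (P u) * hP v - hP (u * v)) }
  have ψev : ∀ Q, ψ (aeval x Q) = ρ Q := fun Q =>
    key _ _ (-y (aeval x Q)) (by linear_combination -hP (aeval x Q))
  have ψx : ∀ n, ψ (x n) = X n := fun n => by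
    rw [← aeval_X (R := ℤ) x n, ψev, map_X]
  have ψ2 : ψ 2 = 0 := by
    rw [map_ofNat]
    exact CharTwo.two_eq_zero
  have ψs : Function.Surjective ψ := fun f => by
    obtain ⟨Q, rfl⟩ := map_surjective (Int.castRingHom (ZMod 2)) (ZMod.ringHom_surjective _) f
    exact ⟨_, ψev Q⟩
  have ψk : ∀ u, ψ u = 0 → 2 ∣ u := fun u hu => by
    obtain ⟨Q, hQ⟩ := (C_dvd_iff_zmod 2 (P u)).2 hu
    refine ⟨aeval x Q + y u, ?_⟩
    have := hP u
    rw [hQ, map_mul, aeval_C] at this
    rw [mul_add]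
    simpa using this
  have hmap : ∀ k, Ideal.map ψ (Ideal.span (w '' Iio k)) =
      Ideal.span (X '' {n | ∃ j, 1 ≤ j ∧ j < k ∧ n = 2 ^ j - 2}) := by
    intro k
    rw [Ideal.map_span]
    apply le_antisymm
    · rw [Ideal.span_le]
      rintro _ ⟨_, ⟨j, hj, rfl⟩, rfl⟩
      rcases Nat.eq_zero_or_pos j with rfl | h
      · rw [w0, ψ2]
        exact Ideal.zero_mem _
      · rw [wk j h, ψx]
        exact Ideal.subset_span ⟨_, ⟨j, h, hj, rfl⟩, rfl⟩
    · apply Ideal.span_mono
      rintro _ ⟨_, ⟨j, h, hj, rfl⟩, rfl⟩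
      exact ⟨_, ⟨j, hj, rfl⟩, by rw [wk j h, ψx]⟩
  constructor
  · intro k _ u
    rw [Ideal.smul_top_eq_map, Algebra.algebraMap_self, Ideal.map_id]
    simp only [Submodule.restrictScalars_mem, smul_eq_mul]
    intro hu
    rcases Nat.eq_zero_or_pos k with rfl | hk
    · have : Iio 0 = (∅ : Set ℕ) := by simp
      rw [this, image_empty, Ideal.span_empty, Ideal.mem_bot] at hu ⊢
      exact tf u (w0 ▸ hu)
    · have h1 := Ideal.mem_map_of_mem ψ hu
      rw [hmap, map_mul, wk k hk, ψx, mem_ideal_span_X_image] at h1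
      have h2 : ψ u ∈ Ideal.map ψ (Ideal.span (w '' Iio k)) := by
        rw [hmap, mem_ideal_span_X_image]
        intro m hm
        obtain ⟨i, hi, hne⟩ := h1 (Finsupp.single (2 ^ k - 2) 1 + m)
          (by rwa [mem_support_iff, coeff_X_mul, ← mem_support_iff])
        refine ⟨i, hi, ?_⟩
        obtain ⟨j, h, hj, rfl⟩ := hi
        have a1 : 2 ^ j < 2 ^ k := Nat.pow_lt_pow_right (by omega) hj
        have a2 : 2 ^ 1 ≤ 2 ^ j := Nat.pow_le_pow_right (by omega) h
        rwa [Finsupp.add_apply, Finsupp.single_eq_of_ne (by omega), zero_add] at hne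
      obtain ⟨v, hv, hvu⟩ := (Ideal.mem_map_iff_of_surjective ψ ψs).1 h2
      obtain ⟨t, ht⟩ := ψk (u - v) (by rw [map_sub, hvu, sub_self])
      have : u = v + w 0 * t := by rw [w0, ← ht]; ring
      rw [this]
      exact Ideal.add_mem _ hv (Ideal.mul_mem_right _ _ (Ideal.subset_span ⟨0, hk, rfl⟩))
  · intro h
    have h1 := Ideal.mem_map_of_mem ψ h
    rw [hmap, map_one, mem_ideal_span_X_image] at h1
    obtain ⟨i, -, hi⟩ := h1 0 (by simp)
    exact hi rfl

end

end Pool.Agent.MP_826def_gt.BG
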