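import Pool.Agent.MP_826def_gt.MU.Alg

/-!
The linear terms of the Hurewicz images of the coefficients of the formal group law.
-/

namespace Pool.Agent.MP_826def_gt.BG

open MU MvPolynomial

noncomputable section

lemma bq_eq {A : Type 1} [CommRing A] (x : A) (M : ℕ) (h : x ^ M = 0) :
    bq x = 1 + ∑ m ∈ Finset.range M, X m * C (x ^ (m + 1)) := by
  unfold bq
  congr 1
  apply finsum_eq_sum_of_support_subset
  intro m hm
  by_contra hlt
  simp only [Finset.coe_range, Set.mem_Iio, not_lt] at hlt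
  apply hm
  show X m * C (x ^ (m + 1)) = (0 : MvPolynomial ℕ A)
  rw [pow_eq_zero_of_le (by omega : M ≤ m + 1) h]
  simp

lemma cc_bq {A : Type 1} [CommRing A] (x : A) (h : IsNilpotent x) :
    constantCoeff (C x * bq x) = x := by
  obtain ⟨M, h⟩ := h
  rw [bq_eq x M h]
  simp

lemma dd_bq {A : Type 1} [CommRing A] (x : A) (h : IsNilpotent x) (n : ℕ) :
    constantCoeff (pderiv n (C x * bq x)) = x ^ (n + 2) := by
  obtain ⟨M, h⟩ := h
  rw [bq_eq x M h, pderiv_C_mul, map_add, map_sum, map_mul, map_add, map_sum]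
  have : ∀ m ∈ Finset.range M,
      constantCoeff (pderiv n (X m * C (x ^ (m + 1)) : MvPolynomial ℕ A)) =
        if m = n then x ^ (m + 1) else 0 := by
    intro m _
    rw [mul_comm, pderiv_C_mul, pderiv_X]
    by_cases hmn : m = n
    · subst hmn
      simp
    · simp [hmn]
  rw [Finset.sum_congr rfl this, Finset.sum_ite_eq']
  by_cases hn : n < M
  · simp [hn]
    ring
  · rw [pow_eq_zero_of_le (by omega : M ≤ n + 2) h]
    simp [hn]

lemma cc_pderiv {A : Type 1} [CommRing A] (P : MvPolynomial ℕ A) (n : ℕ) :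
    constantCoeff (pderiv n P) = P.coeff (Finsupp.single n 1) := by
  rw [constantCoeff_eq, coeff_pderiv]
  simp

/-- The coefficient functional of a monomial. -/
lemma coef {U A : Type 1} [CommRing U] [CommRing A] (φ : U →+* A) (X : Fin 2 → A) (N : ℕ)
    (hX : ∀ i, X i ^ N = 0) (hF : FreeOn X N (φ : U →+ A)) (i j : ℕ) (hi : i < N) (hj : j < N) :
    ∃ κ : A →+ U, (∀ u p q, κ (φ u * (X 0 ^ p * X 1 ^ q)) = if p = i ∧ q = j then u else 0) ∧
      ∀ z ∈ Ideal.span {X 0, X 1} ^ (i + j + 1), κ z = 0 := by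
  classical
  let Ψ : ((Fin 2 → Fin N) → U) →+ A :=
    { toFun := fun c => ∑ e, (∏ k, X k ^ (e k : ℕ)) • (φ : U →+ A) (c e)
      map_zero' := by simp
      map_add' := fun c d => by simp [Finset.sum_add_distrib, mul_add] }
  have hΨ : Function.Bijective Ψ := hF
  let E := AddEquiv.ofBijective Ψ hΨ
  let e0 : Fin 2 → Fin N := ![⟨i, hi⟩, ⟨j, hj⟩]
  let κ : A →+ U := (Pi.evalAddMonoidHom (fun _ => U) e0).comp E.symm.toAddMonoidHom
  have h1 : ∀ u p q, κ (φ u * (X 0 ^ p * X 1 ^ q)) = if p = i ∧ q = j then u else 0 := by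
    intro u p q
    by_cases hp : p < N
    · by_cases hq : q < N
      · let e : Fin 2 → Fin N := ![⟨p, hp⟩, ⟨q, hq⟩]
        have : φ u * (X 0 ^ p * X 1 ^ q) = E (Pi.single e u) := by
          show _ = ∑ f, (∏ k, X k ^ (f k : ℕ)) • (φ : U →+ A) ((Pi.single e u : _ → U) f)
          rw [Finset.sum_eq_single e]
          · simp [e, mul_comm]
          · intro f _ hf
            simp [Pi.single_eq_of_ne hf]
          · simp
        rw [this]
        show E.symm (E (Pi.single e u)) e0 = _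
        rw [E.symm_apply_apply]
        by_cases h : p = i ∧ q = j
        · obtain ⟨rfl, rfl⟩ := h
          simp [e, e0]
        · rw [if_neg h, Pi.single_eq_of_ne]
          intro h'
          apply h
          have a0 := congrFun h' 0
          have a1 := congrFun h' 1
          simp [e, e0] at a0 a1
          omega
      · rw [pow_eq_zero_of_le (by omega : N ≤ q) (hX 1), if_neg (by omega)]
        simp
    · rw [pow_eq_zero_of_le (by omega : N ≤ p) (hX 0), if_neg (by omega)]
      simp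
  have h2 : ∀ w p q, i + j + 1 ≤ p + q → κ (w * (X 0 ^ p * X 1 ^ q)) = 0 := by
    intro w p q hpq
    obtain ⟨c, rfl⟩ := hΨ.2 w
    show κ ((∑ e, (∏ k, X k ^ (e k : ℕ)) • (φ : U →+ A) (c e)) * _) = 0
    rw [Finset.sum_mul, map_sum]
    refine Finset.sum_eq_zero fun e _ => ?_
    have : (∏ k, X k ^ (e k : ℕ)) • (φ : U →+ A) (c e) * (X 0 ^ p * X 1 ^ q) =
        φ (c e) * (X 0 ^ ((e 0 : ℕ) + p) * X 1 ^ ((e 1 : ℕ) + q)) := by
      simp only [Fin.prod_univ_two, smul_eq_mul, AddMonoidHom.coe_coe, pow_add]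
      ring
    rw [this, h1, if_neg (by omega)]
  have h3 : ∀ d, ∀ z ∈ Ideal.span {X 0, X 1} ^ d, ∀ w p q, i + j + 1 ≤ p + q + d →
      κ (w * z * (X 0 ^ p * X 1 ^ q)) = 0 := by
    intro d
    induction d with
    | zero => exact fun z _ w p q h => h2 _ p q h
    | succ d ih =>
      intro z hz
      rw [pow_succ] at hz
      refine Submodule.mul_induction_on hz ?_ ?_
      · intro s hs t ht w p q h
        obtain ⟨α, β, rfl⟩ := Ideal.mem_span_pair.1 ht
        have : w * (s * (α * X 0 + β * X 1)) * (X 0 ^ p * X 1 ^ q) =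
            w * α * s * (X 0 ^ (p + 1) * X 1 ^ q) + w * β * s * (X 0 ^ p * X 1 ^ (q + 1)) := by
          ring
        rw [this, map_add, ih s hs _ _ _ (by omega), ih s hs _ _ _ (by omega), add_zero]
      · intro s t hs ht w p q h
        rw [mul_add, add_mul, map_add, hs w p q h, ht w p q h, add_zero]
  refine ⟨κ, h1, fun z hz => ?_⟩
  simpa using h3 _ z hz 1 0 0 (by omega)

lemma pow_sub_mem {A : Type 1} [CommRing A] (I : Ideal A) (u v : A) (hv : v ∈ I)
    (huv : u - v ∈ I ^ 2) (k : ℕ) : u ^ k - v ^ k ∈ I ^ (k + 1) := by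
  have hu : u ∈ I := by
    have : u = (u - v) + v := by ring
    rw [this]
    exact I.add_mem (Ideal.pow_le_self two_ne_zero huv) hv
  induction k with
  | zero => simp
  | succ k ih =>
    have : u ^ (k + 1) - v ^ (k + 1) = (u ^ k - v ^ k) * u + v ^ k * (u - v) := by ring
    rw [this]
    refine Ideal.add_mem _ ?_ ?_
    · rw [pow_succ I (k + 1)]
      exact Ideal.mul_mem_mul ih hu
    · rw [add_assoc, pow_add]
      exact Ideal.mul_mem_mul (Ideal.pow_mem_pow hv k) huv

lemma term_eq {A : Type 1} [CommRing A] (R P Q : MvPolynomial ℕ A) (n p q : ℕ) :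
    constantCoeff (pderiv n (R * (P ^ p * Q ^ q))) =
      constantCoeff (pderiv n R) * (constantCoeff P ^ p * constantCoeff Q ^ q) +
      constantCoeff R * (p : A) * (constantCoeff P ^ (p - 1) * constantCoeff (pderiv n P) *
        constantCoeff Q ^ q) +
      constantCoeff R * (q : A) * (constantCoeff P ^ p * (constantCoeff Q ^ (q - 1) *
        constantCoeff (pderiv n Q))) := by
  simp only [Derivation.leibniz, Derivation.leibniz_pow, smul_eq_mul, map_add, map_mul, map_pow,
    nsmul_eq_mul, map_natCast]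
  ring

theorem sHur (hFm : S_Fm) : S_Hur := by
  intro U A _ _ a φ X N sU sA ε h0 hs hX hF hU hA hFA _ i j n hi hj hij hN
  have n0 : IsNilpotent (X 0) := ⟨N, hX 0⟩
  have n1 : IsNilpotent (X 1) := ⟨N, hX 1⟩
  obtain ⟨f1, -, -, f4⟩ := hFm A (cf φ a) (X 0) (X 1)
  have g1 := f1 N (hX 0) (hX 1)
  obtain ⟨-, -, nF, -, ⟨G, hG⟩, -⟩ := f4
    (fun k => by simp only [cf, h0]; split_ifs <;> simp) (fun k l => by simp only [cf, hs k l]) n0 n1
  set F := Fm (cf φ a) (X 0) (X 1) with hFdef
  have e1 : C F * bq F = ∑ p ∈ Finset.range N, ∑ q ∈ Finset.range N,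
      map φ (sU (a p q)) * ((C (X 0) * bq (X 0)) ^ p * (C (X 1) * bq (X 1)) ^ q) := by
    rw [← hFA, g1]
    simp only [map_sum, map_mul, map_pow, cf, hU, hA]
  obtain ⟨κ, k1, k2⟩ := coef φ X N hX hF i j (by omega) (by omega)
  have e2 := congrArg (fun P => κ (constantCoeff (pderiv n P))) e1
  have e3 : ∀ p q, κ (constantCoeff (pderiv n
      (map φ (sU (a p q)) * ((C (X 0) * bq (X 0)) ^ p * (C (X 1) * bq (X 1)) ^ q)))) =
      if p = i ∧ q = j then constantCoeff (pderiv n (sU (a p q))) else 0 := by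
    intro p q
    rw [term_eq, cc_bq _ n0, cc_bq _ n1, dd_bq _ n0, dd_bq _ n1, pderiv_map, constantCoeff_map,
      constantCoeff_map, map_add, map_add, k1, ← pow_add, ← pow_add, ← map_natCast φ p,
      ← map_natCast φ q, ← map_mul φ, ← map_mul φ, k1, k1, if_neg (by omega : ¬ (p - 1 + (n + 2) = i ∧ q = j)),
      if_neg (by omega : ¬ (p = i ∧ q - 1 + (n + 2) = j)), add_zero, add_zero]
  simp only [dd_bq F nF, map_sum, e3] at e2
  have e4 : κ (F ^ (n + 2)) = ((n + 2).choose i : U) := by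
    have m0 : X 0 ∈ Ideal.span {X 0, X 1} := Ideal.subset_span (by simp)
    have m1 : X 1 ∈ Ideal.span {X 0, X 1} := Ideal.subset_span (by simp)
    have h := k2 _ (hij ▸ pow_sub_mem (Ideal.span {X 0, X 1}) F (X 0 + X 1)
      (Ideal.add_mem _ m0 m1) (by
        rw [← sub_sub, hG, pow_two]
        exact Ideal.mul_mem_right _ _ (Ideal.mul_mem_mul m0 m1)) (n + 2))
    rw [map_sub, sub_eq_zero] at h
    rw [← hij, h, add_pow, map_sum, Finset.sum_eq_single i]
    · rw [mul_comm, ← map_natCast φ, k1, if_pos ⟨rfl, by omega⟩]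
    · intro b _ hb
      rw [mul_comm, ← map_natCast φ, k1, if_neg (fun h => hb h.1)]
    · intro h
      exact absurd (Finset.mem_range.2 (by omega)) h
  rw [e4, Finset.sum_eq_single i, Finset.sum_eq_single j, if_pos ⟨rfl, rfl⟩] at e2
  · rw [coeff_map, ← cc_pderiv, ← e2, map_natCast]
  · intro b _ hb
    rw [if_neg (fun h => hb h.2)]
  · intro h
    exact absurd (Finset.mem_range.2 (by omega)) h
  · intro b _ hb
    exact Finset.sum_eq_zero fun c _ => if_neg (fun h => hb h.1)
  · intro h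
    exact absurd (Finset.mem_range.2 (by omega)) h

end

end Pool.Agent.MP_826def_gt.BG
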