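import Pool.Agent.MP_826def_gt.BG.Gen
import Pool.Agent.MP_826def_gt.BG.Core345
import Pool.Agent.MP_826def_gt.BG.Hur
import Pool.Agent.MP_826def_gt.BG.Fm

/-!
The structure of the coefficient ring modulo two, from the generation statement.
-/

namespace Pool.Agent.MP_826def_gt.BG

open MU MvPolynomial Set

noncomputable section

theorem sGof (hG : S_Gen) : S_G := by
  intro U _ a π θ hF hπ hd hC tf hθ lin r
  refine core345 (x := xg a) θ (vs a) hπ ?_ (hG U a hF hC) tf hθ ?_ ?_ ?_ r
  · intro n
    have hle : 2 ^ Nat.log 2 (n + 2) ≤ n + 2 := Nat.pow_log_le_self 2 (by omega)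
    unfold xg
    split_ifs with h
    · unfold vs wc
      rw [← h, map_sum]
      refine Finset.sum_congr rfl fun i hi => hd _ _ _ ?_
      have := Finset.mem_range.1 hi
      omega
    · exact hd _ _ _ (by omega)
  · intro n
    have hle : 2 ^ Nat.log 2 (n + 2) ≤ n + 2 := Nat.pow_log_le_self 2 (by omega)
    have hpos : 0 < 2 ^ Nat.log 2 (n + 2) := by positivity
    unfold xg
    split_ifs with h
    · unfold vs wc
      rw [← h, map_sum, coeff_sum, Finset.sum_range_succ, Finset.sum_range_succ', Nat.sub_self,
        hF.symm 0, hF.unit, hF.unit, if_neg (by omega), if_neg (by omega), map_zero, coeff_zero,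
        add_zero, add_zero]
      refine (Finset.sum_pos (fun i hi => ?_) (by simp)).ne'
      have := Finset.mem_range.1 hi
      rw [lin _ _ n (by omega) (by omega) (by omega)]
      exact_mod_cast Nat.choose_pos (by omega)
    · rw [lin _ _ n hpos (by omega) (by omega)]
      exact_mod_cast (Nat.choose_pos hle).ne'
  · unfold vs wc
    rw [pow_zero, Finset.sum_range_succ, Finset.sum_range_one, hF.symm 0]
    simp [hF.unit, one_add_one_eq_two]
  · intro k hk
    have : 2 ^ 1 ≤ 2 ^ k := Nat.pow_le_pow_right (by omega) hk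
    have e : 2 ^ k - 2 + 2 = 2 ^ k := by omega
    unfold xg
    rw [e, Nat.log_pow (by omega), if_pos rfl]

theorem sG : S_G := sGof sGen

theorem sHur0 : S_Hur := sHur sFm

end

end Pool.Agent.MP_826def_gt.BG
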