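import Pool.Agent.MP_826def_gt.BG.Xg
import Pool.Agent.MP_826def_gt.BG.Coc
import Pool.Agent.MP_826def_gt.BG.Ass

/-! The coefficient ring modulo two is generated by one element in each weight. -/

namespace Pool.Agent.MP_826def_gt.BG

open MU Finset

theorem XGen.mem {R : Type 1} [CommRing R] {a : ℕ → ℕ → R} (h : FG a) (h2 : (2 : R) = 0)
    {T : Subring R} (hx : ∀ n, xg a n ∈ T) (m : ℕ) : ∀ i j, i + j = m → a i j ∈ T := by
  have h0 : ∀ i, a i 0 ∈ T := fun i => by
    rw [h.unit]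
    split_ifs
    exacts [T.one_mem, T.zero_mem]
  induction m using Nat.strong_induction_on with
  | _ m ih =>
    by_cases hm : m < 2
    · intro i j hij
      rcases Nat.eq_zero_or_pos j with rfl | hj
      · exact h0 i
      · obtain rfl : i = 0 := by omega
        exact h.symm 0 j ▸ h0 j
    obtain ⟨n, rfl⟩ : ∃ n, m = n + 2 := ⟨m - 2, by omega⟩
    have e2 : ∀ x : R, 2 * x ∈ T.toAddSubgroup := fun x => by
      rw [h2, zero_mul]
      exact T.zero_mem
    have hs : ∀ i ≤ n + 2, a i (n + 2 - i) = a (n + 2 - i) (n + 2 - (n + 2 - i)) := fun i hi => by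
      rw [h.symm, Nat.sub_sub_self hi]
    have hr : ∀ i s, 1 ≤ i → i < s → s < n + 2 → (s.choose i : R) * a s (n + 2 - s) -
        ((n + 2 - i).choose (s - i) : R) * a i (n + 2 - i) ∈ T.toAddSubgroup := by
      intro i s a1 a2 a3
      have := XAss.rel h (T := T) (i := i) (j := s - i) (k := n + 2 - s) a1 (by omega) (by omega)
        fun p q hpq => ih (p + q) (by omega) p q rfl
      rwa [show i + (s - i) = s by omega, show s - i + (n + 2 - s) = n + 2 - i by omega,
        h.symm _ i] at this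
    have a0 : a 0 (n + 2 - 0) ∈ T.toAddSubgroup := h.symm 0 _ ▸ h0 _
    have b1 : 2 ^ Nat.log 2 (n + 2) ≤ n + 2 := Nat.pow_log_le_self 2 (by omega)
    have b2 : n + 2 < 2 ^ (Nat.log 2 (n + 2) + 1) := Nat.lt_pow_succ_log_self (by norm_num) _
    have b3 := hx n
    unfold xg at b3
    generalize Nat.log 2 (n + 2) = k at b1 b2 b3
    suffices ∀ i ≤ n + 2, a i (n + 2 - i) ∈ T.toAddSubgroup from fun i j hij => by
      have := this i (by omega)
      rwa [show n + 2 - i = j by omega] at this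
    split_ifs at b3 with hk
    · obtain ⟨k, rfl⟩ : ∃ k', k = k' + 1 := ⟨k - 1, by rcases k with _ | k <;> simp at hk ⊢⟩
      rw [hk] at hs hr a0 ⊢
      exact XCoc.coc_pow (al := fun i => a i (2 ^ (k + 1) - i)) e2 hs hr a0 b3
    · exact XCoc.coc_other (al := fun i => a i (n + 2 - i)) e2 (lt_of_le_of_ne b1 (Ne.symm hk)) b2
        hs hr a0 b3

theorem sGen : S_Gen := by
  intro U _ a h hU u
  obtain ⟨c, hc, y, rfl⟩ := hU u
  let φ := Ideal.Quotient.mk (Ideal.span {(2 : U)})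
  have h1 : FG (cf φ a) := ⟨fun i => by simp [cf, h.unit], fun i j => by rw [cf, cf, h.symm],
    fun A _ ψ => h.assoc A (ψ.comp φ)⟩
  have h2 : (2 : U ⧸ Ideal.span {(2 : U)}) = 0 :=
    (map_ofNat φ 2).symm.trans (Ideal.Quotient.eq_zero_iff_mem.2 (Ideal.mem_span_singleton_self _))
  have h3 : ∀ n, xg (cf φ a) n = φ (xg a n) := fun n => by
    unfold xg
    split_ifs
    · simp [vs, wc, cf]
    · rfl
  let T := (φ.comp (MvPolynomial.aeval (R := ℤ) (xg a)).toRingHom).range
  have h4 : ∀ n, xg (cf φ a) n ∈ T := fun n => ⟨MvPolynomial.X n, by simp [h3]⟩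
  have h5 : Subring.closure (Set.range fun q : ℕ × ℕ => a q.1 q.2) ≤ T.comap φ :=
    Subring.closure_le.2 (by
      rintro _ ⟨q, rfl⟩
      exact XGen.mem h1 h2 h4 _ q.1 q.2 rfl)
  obtain ⟨P, hP⟩ := h5 hc
  obtain ⟨z, hz⟩ := Ideal.mem_span_singleton.1 (Ideal.Quotient.eq.1 hP.symm)
  refine ⟨P, y + z, ?_⟩
  have : c = MvPolynomial.aeval (xg a) P + 2 * z := sub_eq_iff_eq_add'.1 hz
  rw [this]
  ring

end Pool.Agent.MP_826def_gt.BG
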