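import Pool.Agent.MP_826def_gt.MU.Spec
import Pool.Agent.MP_826def_gt.BG.G

/-!
The sequence `2, v_1, v_2, …` is regular on the coefficient ring and on the group of a point.
-/

namespace Pool.Agent.MP_826def_gt.BG

open MU Set

noncomputable section

lemma grd_zero_mul {U : Type 1} [CommRing U] {π : ℕ → U →+ U} (hπ : Grd π) (u v : U) :
    π 0 (u * v) = π 0 u * π 0 v := by
  have key : ∀ d e, π 0 (π d u * π e v) = π 0 (π d u) * π 0 (π e v) := by
    intro d e
    have h1 : π d (π d u) = π d u := by rw [hπ.proj, if_pos rfl]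
    have h2 : π e (π e v) = π e v := by rw [hπ.proj, if_pos rfl]
    have h3 := hπ.mul d e _ _ h1 h2
    rw [← h3, hπ.proj, h3, hπ.proj, hπ.proj]
    by_cases hd : 0 = d
    · by_cases he : 0 = e
      · rw [if_pos (by omega), if_pos hd, if_pos he]
      · rw [if_neg (by omega), if_neg he, mul_zero]
    · rw [if_neg (by omega), if_neg hd, zero_mul]
  obtain ⟨D, hD⟩ := hπ.fin u
  obtain ⟨E, hE⟩ := hπ.fin v
  conv_lhs => rw [← hD, ← hE, Finset.sum_mul_sum]
  conv_rhs => rw [← hD, ← hE]
  simp only [map_sum]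
  rw [Finset.sum_mul_sum]
  exact Finset.sum_congr rfl fun d _ => Finset.sum_congr rfl fun e _ => key d e

lemma reg_of_split {U N : Type 1} [CommRing U] [AddCommGroup N] [Module U N] (w : ℕ → U) (r : ℕ)
    (w0 : w 0 = 2) (hU : Reg w r U) (p : N →ₗ[U] U) (i : U →ₗ[U] N) (hpi : ∀ u, p (i u) = u)
    (inj : ∀ x, p x = 0 → x + x = 0 → x = 0) (sur : ∀ x, p x = 0 → ∃ y, x = y + y) :
    Reg w r N := by
  intro k hk x hx
  have h1 : p x ∈ Ideal.span (w '' Iio k) • (⊤ : Submodule U U) := by
    apply hU k hk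
    rw [← map_smul]
    have := Submodule.mem_map_of_mem (f := p) hx
    rw [Submodule.map_smul''] at this
    exact Submodule.smul_mono le_rfl le_top this
  have h2 : i (p x) ∈ Ideal.span (w '' Iio k) • (⊤ : Submodule U N) := by
    have := Submodule.mem_map_of_mem (f := i) h1
    rw [Submodule.map_smul''] at this
    exact Submodule.smul_mono le_rfl le_top this
  rcases Nat.eq_zero_or_pos k with rfl | hk0
  · have e : w '' Iio 0 = ∅ := by simp
    rw [e, Ideal.span_empty, Submodule.bot_smul, Submodule.mem_bot] at hx h1 ⊢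
    rw [w0, two_smul] at hx
    exact inj x h1 hx
  · obtain ⟨y, hy⟩ := sur (x - i (p x)) (by rw [map_sub, hpi, sub_self])
    have h3 : x = i (p x) + w 0 • y := by rw [w0, two_smul, ← hy]; abel
    rw [h3]
    exact Submodule.add_mem _ h2
      (Submodule.smul_mem_smul (Ideal.subset_span ⟨0, hk0, rfl⟩) Submodule.mem_top)

variable [Fact Core]

lemma grd_part (A : Api) (gp : S_GP) : Grd (U := UU) fun d : ℕ => part (-(d : ℤ)) := by
  classical
  refine ⟨fun u => ?_, fun d e u => ?_, ?_, fun d e u v hu hv => ?_⟩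
  · obtain ⟨S, h1, h2⟩ := A.deg.fin u
    refine ⟨S.sup Int.natAbs + 1, ?_⟩
    have e1 : ∑ d ∈ Finset.range (S.sup Int.natAbs + 1), part (-(d : ℤ)) u =
        ∑ e ∈ (Finset.range (S.sup Int.natAbs + 1)).image (fun d : ℕ => -(d : ℤ)), part e u :=
      (Finset.sum_image (f := fun e : ℤ => part e u) fun a _ b _ h => by
        have : (-(a : ℤ)) = -(b : ℤ) := h
        omega).symm
    rw [e1]
    refine Eq.trans ?_ h1
    rw [Finset.sum_subset (Finset.subset_union_left (s₂ := S)),
      ← Finset.sum_subset (Finset.subset_union_right (s₂ := S))]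
    · exact fun e _ he => h2 e he
    · intro e he he'
      have hS : e ∈ S := (Finset.mem_union.1 he).resolve_left he'
      refine gp.1 e ?_ u
      by_contra h
      apply he'
      have : e.natAbs ≤ S.sup Int.natAbs := Finset.le_sup (f := Int.natAbs) hS
      exact Finset.mem_image.2 ⟨e.natAbs, Finset.mem_range.2 (by omega), by omega⟩
  · rw [A.deg.proj]
    by_cases h : d = e
    · rw [if_pos h, if_pos (by rw [h])]
    · rw [if_neg h, if_neg (by omega)]
  · have := A.deg.one Unit
    simpa [IsDeg] using this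
  · have := A.deg.prod (ContinuousMap.id Unit) (ContinuousMap.id Unit) (-(d : ℤ)) (-(e : ℤ)) u hu v
    rw [hv, ← mul_def] at this
    have e1 : (-((d + e : ℕ) : ℤ)) = -(d : ℤ) + -(e : ℤ) := by push_cast; ring
    rw [e1]
    exact this

lemma exists_eps (A : Api) (gp : S_GP) (dg : S_DG) :
    ∃ ε : UU →+* ℤ, ∀ u, (ε u : UU) = part 0 u := by
  choose f hf using gp.2.2
  have inj : ∀ m n : ℤ, (m : UU) = n → m = n := fun m n h =>
    sub_eq_zero.1 (dg _ (by rw [Int.cast_sub, h, sub_self]))
  have h0 := grd_zero_mul (grd_part A gp)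
  simp only [Nat.cast_zero, neg_zero] at h0
  refine ⟨{ toFun := f
            map_one' := inj _ _ ?_
            map_mul' := fun u v => inj _ _ ?_
            map_zero' := inj _ _ ?_
            map_add' := fun u v => inj _ _ ?_ }, fun u => (hf u).symm⟩
  · rw [← hf, Int.cast_one]
    exact A.deg.one Unit
  · rw [Int.cast_mul, ← hf, ← hf, ← hf, h0]
  · rw [← hf, map_zero, Int.cast_zero]
  · rw [Int.cast_add, ← hf, ← hf, ← hf, map_add]

theorem reg (A : Api) (qa : S_QA) (gp : S_GP) (dg : S_DG) (ln : S_LN) (c : S_CPr) : S_Reg := by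
  intro a hF r
  obtain ⟨ε, hε⟩ := exists_eps A gp dg
  obtain ⟨s, hs⟩ := ln
  obtain ⟨q1, q2, q3⟩ := qa a hF
  have hε0 : ∀ (d : ℤ) (x : UU), IsDeg d x → d ≠ 0 → ε x = 0 := by
    intro d x hx hd
    apply dg
    rw [hε, ← hx, A.deg.proj, if_neg (Ne.symm hd)]
  have hG := sG UU a (fun d : ℕ => part (-(d : ℤ))) ((MvPolynomial.map ε).comp (s Unit)) hF.fg
    (grd_part A gp)
    (fun i j d h => by
      have e : (-(d : ℤ)) = 1 - i - j := by omega
      show part (-(d : ℤ)) (a i j) = a i j
      rw [e]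
      exact hF.deg i j) q1 q2
    (fun d u hu α hα => by
      by_contra hne
      apply hα
      rw [RingHom.comp_apply, MvPolynomial.coeff_map]
      refine hε0 _ _ (hs.deg (-(d : ℤ)) u hu α) ?_
      omega)
    (fun i j n hi hj hij => by
      obtain ⟨c1, c2, -⟩ := c 2 (n + 3) (n + 3) le_rfl
      have rk : ∀ l : Fin 2, ((taut (n + 3) (n + 3)).pull
          (⟨fun b => b l, continuous_apply l⟩ : C(Fin 2 → CP (n + 3) (n + 3), _))).Rk 1 :=
        fun l x => A.bun.rk_taut _ _ _
      refine sHur0 UU _ a (toU _) (xs 2 (n + 3) (n + 3)) (n + 3) (s Unit) (s _) ε hF.fg.unit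
        hF.fg.symm c1 c2 (fun u => hs.nat _ u) (fun l => hs.line _ (rk l)) ?_
        (fun i j h => hε0 _ _ (hF.deg i j) (by omega)) i j n hi hj hij (by omega)
      have e := hF.tens _ _ _ (rk 0) (rk 1) (A.bun.rk_tm _ _) (A.bun.tens_tm _ _)
      have e2 := hs.line _ (A.bun.rk_tm (⟨fun b => b 0, continuous_apply 0⟩ :
        C(Fin 2 → CP (n + 3) (n + 3), _)) ⟨fun b => b 1, continuous_apply 1⟩)
      rw [e] at e2
      exact e2) r
  refine ⟨hG.1, hG.2, ?_⟩
  have hact : ∀ u x : UU, act (toPt Unit) u x = u * x := by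
    intro u x
    rw [A.act.self]
    congr 1
    exact pull_id u
  let p : Mod (toPt Unit) →ₗ[UU] UU :=
    { toFun := fun x => x.1
      map_add' := fun _ _ => rfl
      map_smul' := fun u x => hact u x.1 }
  let i : UU →ₗ[UU] Mod (toPt Unit) :=
    { toFun := fun x => (x, 0)
      map_add' := fun _ _ => Prod.ext rfl (add_zero _).symm
      map_smul' := fun u x => Prod.ext (hact u x).symm
        (map_zero (act ((toPt Unit).comp ContinuousMap.fst) u)).symm }
  refine reg_of_split (vs a) r (wc_one a hF.fg.unit hF.fg.symm) hG.1 p i (fun _ => rfl)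
    (fun x h1 h2 => Prod.ext h1 (q3.1 ?_)) fun x h1 => ?_
  · exact (congrArg Prod.snd h2).trans (add_zero _).symm
  · obtain ⟨y, hy⟩ := q3.2 x.2
    exact ⟨(0, y), Prod.ext (h1.trans (add_zero _).symm) hy.symm⟩

end

end Pool.Agent.MP_826def_gt.BG
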