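import Pool.Agent.MP_826def_gt.MU.Alg

/-! The polynomial generators of the coefficient ring modulo two. -/

namespace Pool.Agent.MP_826def_gt.BG

open MU

noncomputable section

/-- The generator of weight `n + 1`. -/
def xg {U : Type 1} [CommRing U] (a : ℕ → ℕ → U) (n : ℕ) : U :=
  if n + 2 = 2 ^ Nat.log 2 (n + 2) then vs a (Nat.log 2 (n + 2))
  else a (2 ^ Nat.log 2 (n + 2)) (n + 2 - 2 ^ Nat.log 2 (n + 2))

/-- Generation modulo two. -/
def S_Gen : Prop :=
  ∀ (U : Type 1) [CommRing U] (a : ℕ → ℕ → U), FG a →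
    (∀ u : U, ∃ c ∈ Subring.closure (Set.range fun q : ℕ × ℕ => a q.1 q.2), ∃ y, u = c + 2 * y) →
    ∀ u : U, ∃ (P : MvPolynomial ℕ ℤ) (y : U), u = MvPolynomial.aeval (xg a) P + 2 * y

end

end Pool.Agent.MP_826def_gt.BG
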